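import Pool.Agent.Helper12.TS.St
import Pool.Agent.Helper51.AJ.Basic

/-!
# Project TS (MP_d63854_co), module M3E: five components
-/

set_option autoImplicit false

namespace Pool.Agent.Helper50.TS

open Pool.Agent.Helper12.TS
open Pool.Agent.Helper51.AJ (IsMinor Planar Apex ExMinor Con Tch tch_symm con_singleton)
open Pool.Agent.Helper12.NK (rst Kc add)

private theorem con_mono {V : Type} {G K : SimpleGraph V} {A : Set V} (h : Con G A)
    (hK : ∀ x ∈ A, ∀ y ∈ A, G.Adj x y → K.Adj x y) : Con K A :=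
  SimpleGraph.Connected.mono (fun x y hxy => hK _ x.2 _ y.2 hxy) h

theorem hM3E : StCMP → StPTN → StLNK → StM3E := by
  intro hCMP _ hLNK V _ G S C hM hK hS hC hne hst
  obtain ⟨-, c2, -, c4, -⟩ := hCMP V G S
  have dis : ∀ i j, i ≠ j → Disjoint (C i) (C j) := fun i j h => c2 _ _ (hC i) (hC j) (hne i j h)
  have disS : ∀ i, Disjoint (C i) S := fun i => (hC i).1
  have tch : ∀ i, ∀ s ∈ S, Tch G {s} (C i) := fun i s hs => c4 hK hS _ (hC i) s hs
  obtain ⟨s0, s1, s2, n01, n02, n12, rfl⟩ := Set.ncard_eq_three.1 hS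
  -- the minor
  obtain ⟨v, hv⟩ := hM.2 G (C 4)ᶜ id le_rfl
    (fun x hx => by
      have : {z | z ∈ (C 4)ᶜ ∧ id z = id x} = {x} := by
        ext z
        constructor
        · exact fun h => h.2
        · rintro rfl
          exact ⟨hx, rfl⟩
      rw [this]
      exact con_singleton G x)
    (by
      obtain ⟨x, -, y, hy, hxy⟩ := tch 4 s0 (by simp)
      exact ⟨x, y, hxy, fun h => h.2.2.1 hy⟩)
  set K := rst (quo G (C 4)ᶜ id) {v}ᶜ with hKd
  have adj : ∀ a b, G.Adj a b → a ∉ C 4 → b ∉ C 4 → a ≠ v → b ≠ v → K.Adj a b := fun a b h ha hb ha' hb' =>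
    ⟨⟨G.ne_of_adj h, a, ha, b, hb, rfl, rfl, h⟩, ha', hb'⟩
  have conK : ∀ i, i ≠ 4 → v ∉ C i → Con K (C i) := by
    intro i hi hvi
    refine con_mono (hC i).2.1 fun x hx y hy hxy => adj x y hxy ?_ ?_ ?_ ?_
    · exact Set.disjoint_left.1 (dis i 4 hi) hx
    · exact Set.disjoint_left.1 (dis i 4 hi) hy
    · rintro rfl; exact hvi hx
    · rintro rfl; exact hvi hy
  have tchK : ∀ i, i ≠ 4 → v ∉ C i → ∀ s ∈ ({s0, s1, s2} : Set V), s ≠ v → Tch K {s} (C i) := by
    intro i hi hvi s hs hsv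
    obtain ⟨x, hx, y, hy, hxy⟩ := tch i s hs
    have hx' : x = s := hx
    subst hx'
    refine ⟨x, rfl, y, hy, adj x y hxy ?_ ?_ hsv ?_⟩
    · exact fun h => Set.disjoint_left.1 (disS 4) h hs
    · exact Set.disjoint_left.1 (dis i 4 hi) hy
    · rintro rfl; exact hvi hy
  -- two elements of `S` linked by a component
  have key : ∀ i ∈ ({s0, s1, s2} : Set V), ∀ j, j ≠ 0 → j ≠ 4 → v ∉ C j → v ∉ C 0 →
      v ∉ ({s0, s1, s2} : Set V) \ {i} → False := by
    intro i hi j hj0 hj4 hvj hv0 hvS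
    have h2 : (({s0, s1, s2} : Set V) \ {i}).ncard = 2 := by
      rw [Set.ncard_sdiff_singleton_of_mem hi, hS]
    obtain ⟨a, b, hab, hE⟩ := Set.ncard_eq_two.1 h2
    have ha : a ∈ ({s0, s1, s2} : Set V) \ {i} := by rw [hE]; simp
    have hb : b ∈ ({s0, s1, s2} : Set V) \ {i} := by rw [hE]; simp
    have hav : a ≠ v := by rintro rfl; exact hvS ha
    have hbv : b ≠ v := by rintro rfl; exact hvS hb
    have sub : ∀ x ∈ C 0 ∪ {a, b}, x ∉ C 4 ∧ x ≠ v := by
      intro x hx
      rw [← hE] at hx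
      rcases hx with hx | hx
      · exact ⟨Set.disjoint_left.1 (dis 0 4 (by decide)) hx, by rintro rfl; exact hv0 hx⟩
      · exact ⟨fun h => Set.disjoint_left.1 (disS 4) h hx.1, by rintro rfl; exact hvS hx⟩
    refine hst i hi ?_
    rw [hE]
    refine hLNK V G K (C 0) (C j) a b ?_ ?_ ?_ hv
    · intro x y hxy
      exact adj x y hxy.1 (sub x hxy.2.1).1 (sub y hxy.2.2).1 (sub x hxy.2.1).2 (sub y hxy.2.2).2
    · rw [← hE]
      refine Set.disjoint_union_right.2 ⟨dis j 0 hj0, (disS j).mono_right Set.sdiff_subset⟩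
    · exact Or.inr ⟨C j, subset_rfl, conK j hj4 hvj, tchK j hj4 hvj a ha.1 hav, tchK j hj4 hvj b hb.1 hbv⟩
  by_cases h0 : v ∈ C 0
  · -- a model of `K₃,₃`
    have hvC : ∀ i, i ≠ 0 → v ∉ C i := fun i hi h => Set.disjoint_left.1 (dis i 0 hi) h h0
    have hvS : v ∉ ({s0, s1, s2} : Set V) := Set.disjoint_left.1 (disS 0) h0
    let s : Fin 3 → V := ![s0, s1, s2]
    let c : Fin 3 → Fin 5 := ![1, 2, 3]
    have hs : ∀ k, s k ∈ ({s0, s1, s2} : Set V) := by
      intro k; fin_cases k <;> simp [s]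
    have hsi : ∀ k l, k ≠ l → s k ≠ s l := by
      intro k l hkl
      fin_cases k <;> fin_cases l <;> first
        | exact absurd rfl hkl
        | exact n01
        | exact n02
        | exact n12
        | exact n01.symm
        | exact n02.symm
        | exact n12.symm
    have hci : ∀ k l : Fin 3, k ≠ l → c k ≠ c l := by decide
    have hc0 : ∀ k : Fin 3, c k ≠ 0 := by decide
    have hc4 : ∀ k : Fin 3, c k ≠ 4 := by decide
    have hsv : ∀ k, s k ≠ v := fun k h => hvS (h ▸ hs k)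
    refine hv.2 ⟨fun w => Sum.elim (fun k => C (c k)) (fun k => {s k}) w, ?_, ?_, ?_⟩
    · rintro (k | k)
      · exact conK (c k) (hc4 k) (hvC _ (hc0 k))
      · exact con_singleton K (s k)
    · rintro (k | k) (l | l) hkl
      · exact dis _ _ (hci k l (fun h => hkl (by rw [h])))
      · exact Set.disjoint_singleton_right.2 (fun h => Set.disjoint_left.1 (disS (c k)) h (hs l))
      · exact Set.disjoint_singleton_left.2 (fun h => Set.disjoint_left.1 (disS (c l)) h (hs k))
      · exact Set.disjoint_singleton.2 (hsi k l (fun h => hkl (by rw [h])))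
    · rintro (k | k) (l | l) hkl
      · simp [completeBipartiteGraph] at hkl
      · exact tch_symm (tchK (c k) (hc4 k) (hvC _ (hc0 k)) (s l) (hs l) (hsv l))
      · exact tchK (c l) (hc4 l) (hvC _ (hc0 l)) (s k) (hs k) (hsv k)
      · simp [completeBipartiteGraph] at hkl
  · by_cases hvS : v ∈ ({s0, s1, s2} : Set V)
    · exact key v hvS 1 (by decide) (by decide) (fun h => Set.disjoint_left.1 (disS 1) h hvS) h0 (fun h => h.2 rfl)
    · by_cases h1 : v ∈ C 1
      · exact key s0 (by simp) 2 (by decide) (by decide) (fun h => Set.disjoint_left.1 (dis 1 2 (by decide)) h1 h) h0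
          (fun h => hvS h.1)
      · exact key s0 (by simp) 1 (by decide) (by decide) h1 h0 (fun h => hvS h.1)

end Pool.Agent.Helper50.TS
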